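import Mathlib
import Pool.Agent.Work.MP_db9399_co.Defs

/-!
# MP_db9399, THEOREM MAD: Q1 for all graphs of large maximum degree with
maximum average degree at most `(1 - g) Δ` (owner helper75)

Exact statement `Stmt_X` of every block. See `BLUEPRINT.md`.
-/

set_option autoImplicit false

namespace Pool.Agent.Work.MP_db9399_mad

open Finset
open _root_.MP_db9399_co

universe u v

/-! ## Expanders -/

/-- GG: the Gabber-Galil (Margulis) expander, Poincare inequality. -/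
def Stmt_GG : Prop :=
  ∀ (m : ℕ) [NeZero m] (f : ZMod m × ZMod m → ℝ), ∑ z, f z = 0 →
    ∑ z, f z ^ 2 ≤ 144 * (∑ z : ZMod m × ZMod m, (f (z.1 + 2 * z.2, z.2) - f z) ^ 2
      + ∑ z : ZMod m × ZMod m, (f (z.1, z.2 + 2 * z.1) - f z) ^ 2
      + ∑ z : ZMod m × ZMod m, (f (z.1 + 1, z.2) - f z) ^ 2
      + ∑ z : ZMod m × ZMod m, (f (z.1, z.2 + 1) - f z) ^ 2)

/-- LIFT: quadratic form of the lift of `K₁₁` given by the permutations `p d`. -/
def Stmt_LIFT : Prop :=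
  ∀ (Z : Type) [Fintype Z] (C : ℝ) (p : ZMod 11 → Equiv.Perm Z), 1 ≤ C → p 1 = 1 →
    (∀ d, p (-d) = (p d)⁻¹) →
    (∀ f : Z → ℝ, ∑ z, f z = 0 →
      ∑ z, f z ^ 2 ≤ C * ∑ d ∈ ({2, 3, 4, 5} : Finset (ZMod 11)), ∑ z, (f (p d z) - f z) ^ 2) →
    ∀ u : Z × ZMod 11 → ℝ, ∑ x, u x = 0 →
      |∑ x : Z × ZMod 11, ∑ d ∈ univ.erase (0 : ZMod 11), u x * u (p d x.1, x.2 + d)|
        ≤ (10 - 1 / (1000 * C)) * ∑ x, u x ^ 2

/-- The graph: lift of `K₁₁` by the permutations `p d`, every vertex blown up `s` times. -/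
def LG {Z : Type} (p : ZMod 11 → Equiv.Perm Z) (hp : ∀ d, p (-d) = (p d)⁻¹) (s : ℕ) :
    SimpleGraph ((Z × ZMod 11) × Fin s) where
  Adj x y := x.1.2 ≠ y.1.2 ∧ y.1.1 = p (y.1.2 - x.1.2) x.1.1
  symm := ⟨by
    rintro x y ⟨h1, h2⟩
    refine ⟨h1.symm, ?_⟩
    have h3 : x.1.2 - y.1.2 = -(y.1.2 - x.1.2) := by ring
    rw [h3, hp, h2]
    simp⟩
  loopless := ⟨fun x h => h.1 rfl⟩

/-- BLOW: degrees and expansion of `LG` from the quadratic form. -/
def Stmt_BLOW : Prop :=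
  ∀ (Z : Type) [Fintype Z] (p : ZMod 11 → Equiv.Perm Z) (hp : ∀ d, p (-d) = (p d)⁻¹) (μ : ℝ)
    (s : ℕ) [DecidableRel (LG p hp s).Adj], 0 ≤ μ → μ ≤ 10 → Nonempty Z → 0 < s →
    (∀ u : Z × ZMod 11 → ℝ, ∑ x, u x = 0 →
      |∑ x : Z × ZMod 11, ∑ d ∈ univ.erase (0 : ZMod 11), u x * u (p d x.1, x.2 + d)|
        ≤ μ * ∑ x, u x ^ 2) →
    (∀ x, (LG p hp s).degree x = 10 * s) ∧
    ∀ A B : Finset ((Z × ZMod 11) × Fin s),
      100 * A.card ≤ 51 * Fintype.card ((Z × ZMod 11) × Fin s) →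
      100 * B.card ≤ 51 * Fintype.card ((Z × ZMod 11) × Fin s) →
      (((LG p hp s).interedges A B).card : ℝ)
        ≤ (1 - 49 / 1000 * (10 - μ)) * (10 * s) * (((A.card : ℝ) + B.card) / 2)

/-- EXPANDER: nearly regular expanders of every large degree on arbitrarily many vertices. -/
def Stmt_EXPANDER : Prop :=
  ∃ g0 : ℝ, 0 < g0 ∧ ∀ D N0 : ℕ, 11 ≤ D →
    ∃ (W : Type) (_ : Fintype W) (K : SimpleGraph W), N0 ≤ Fintype.card W ∧
      ∀ [DecidableRel K.Adj], (∀ w, K.degree w + 1 ≤ D ∧ D ≤ K.degree w + 10) ∧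
        ∀ A B : Finset W, 100 * A.card ≤ 51 * Fintype.card W →
          100 * B.card ≤ 51 * Fintype.card W →
          ((K.interedges A B).card : ℝ) ≤ (1 - g0) * D * (((A.card : ℝ) + B.card) / 2)

/-- EXPD: assembly. -/
def Stmt_EXPD : Prop := Stmt_GG → Stmt_LIFT → Stmt_BLOW → Stmt_EXPANDER

/-! ## The embedding -/

/-- The graph `G` on `V` and the graph `K` on `W` joined by the relation `R`. -/
def EG {V : Type u} {W : Type v} (G : SimpleGraph V) (K : SimpleGraph W) (R : V → W → Prop) :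
    SimpleGraph (V ⊕ W) where
  Adj x y := match x, y with
    | Sum.inl a, Sum.inl b => G.Adj a b
    | Sum.inl a, Sum.inr b => R a b
    | Sum.inr a, Sum.inl b => R b a
    | Sum.inr a, Sum.inr b => K.Adj a b
  symm := ⟨by
    rintro (a | a) (b | b) h
    · exact G.adj_symm h
    · exact h
    · exact h
    · exact K.adj_symm h⟩
  loopless := ⟨by
    rintro (a | a) h
    · exact G.loopless.irrefl a h
    · exact K.loopless.irrefl a h⟩

/-- MADE: from maximum average degree to pairs of sets. -/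
def Stmt_MADE : Prop :=
  ∀ {V : Type u} [Fintype V] (G : SimpleGraph V) [DecidableRel G.Adj] (c : ℝ),
    (∀ S : Finset V, ((G.interedges S S).card : ℝ) ≤ c * S.card) →
    ∀ A B : Finset V, ((G.interedges A B).card : ℝ) ≤ c * (((A.card : ℝ) + B.card) / 2)

/-- EMB: `G` is an induced subgraph of a nearly regular expander `EG G K R` in which every new
vertex has at most one neighbour in `G`. -/
def Stmt_EMB : Prop :=
  ∀ g : ℝ, 0 < g → ∃ γ : ℝ, 0 < γ ∧ ∀ ε : ℝ, 0 < ε → ∃ d1 : ℕ,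
    ∀ (V : Type u) [Fintype V] (G : SimpleGraph V) [DecidableRel G.Adj] (d : ℕ), d1 ≤ d →
      (∀ v, G.degree v ≤ d) →
      (∀ S : Finset V, ((G.interedges S S).card : ℝ) ≤ (1 - g) * d * S.card) →
      ∃ (W : Type) (_ : Fintype W) (K : SimpleGraph W) (R : V → W → Prop),
        (∀ w a b, R a w → R b w → a = b) ∧
        ∀ [DecidableRel (EG G K R).Adj],
          (2 + γ) * d ≤ (Fintype.card (V ⊕ W) : ℝ) ∧
          (∀ x, (EG G K R).degree x ≤ d ∧ (1 - ε) * d ≤ ((EG G K R).degree x : ℝ)) ∧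
          ∀ A B : Finset (V ⊕ W), B.card ≤ A.card → 2 * A.card ≤ Fintype.card (V ⊕ W) →
            (((EG G K R).interedges A B).card : ℝ) ≤ (1 - γ) * d * A.card

/-- EMBX: EMB from EXPANDER and MADE. -/
def Stmt_EMBX : Prop := Stmt_EXPANDER → Stmt_MADE.{u} → Stmt_EMB.{u}

/-- TRANS: extension of total colourings passes from `EG G K R` to `G`. -/
def Stmt_TRANS : Prop :=
  ∀ (V : Type u) (W : Type) (G : SimpleGraph V) (K : SimpleGraph W) (R : V → W → Prop)
    (C : Type), (∀ w a b, R a w → R b w → a = b) →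
    (∀ H' : (EG G K R).Subgraph, IsDistThreeMatching H' → EveryTotalColoringExtends H' C) →
    ∀ H : G.Subgraph, IsDistThreeMatching H → EveryTotalColoringExtends H C

/-- THE THEOREM. -/
def Stmt_MAD : Prop :=
  ∀ g : ℝ, 0 < g → ∃ d0 : ℕ, ∀ (V : Type u) [Fintype V] (G : SimpleGraph V)
    [DecidableRel G.Adj] (d k : ℕ), d0 ≤ d → d + 2 ≤ k → (∀ v, G.degree v ≤ d) →
    (∀ S : Finset V, ((G.interedges S S).card : ℝ) ≤ (1 - g) * d * S.card) →
    ∀ H : G.Subgraph, IsDistThreeMatching H → EveryTotalColoringExtends H (Fin k)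

end Pool.Agent.Work.MP_db9399_mad
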